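import Pool.Agent.helper13.U4.Spec

set_option autoImplicit false

namespace Pool.Agent.U4

open Pool.Agent.UL

theorem VCE_conv (v : ℕ) (F : ℤ → Bool) (hv : v % 2 = 1) (n : ℕ) (hn : n % 2 = 0) (p : ℕ × ℕ)
    (hp : Rep (Vs v F) n p) :
    (∃ a b : ℕ, a < b ∧ F (a : ℤ) = true ∧ F (b : ℤ) = true ∧ p = (v + 2 * a, v + 2 * b) ∧
      n = 2 * v + 2 * (a + b)) ∨
    (p = (4, 2 * v + 4) ∧ n = 2 * v + 8) ∨ (p = (4, 4 * v + 4) ∧ n = 4 * v + 8) ∨
      (p = (2 * v + 4, 4 * v + 4) ∧ n = 6 * v + 8) := by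
  obtain ⟨h1, h2, h3, h4⟩ := hp
  have split : ∀ x, x ∈ Vs v F → (x % 2 = 0 ∧ (x = 4 ∨ x = 2 * v + 4 ∨ x = 4 * v + 4)) ∨
      (x % 2 = 1 ∧ ∃ i : ℕ, F i = true ∧ x = v + 2 * i) := by
    intro x hx
    rcases hx with h | h | h | ⟨i, hi, h⟩
    · left; exact ⟨by omega, Or.inl h⟩
    · left; exact ⟨by omega, Or.inr (Or.inl h)⟩
    · left; exact ⟨by omega, Or.inr (Or.inr h)⟩
    · right; exact ⟨by omega, i, hi, h⟩
  obtain ⟨p1, p2⟩ := p
  simp only at h1 h2 h3 h4
  rcases split _ h2 with ⟨a1, a2⟩ | ⟨a1, i, a2, a3⟩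
  · rcases split _ h3 with ⟨b1, b2⟩ | ⟨b1, i, b2, b3⟩
    · rcases a2 with a2 | a2 | a2 <;> rcases b2 with b2 | b2 | b2 <;> subst a2 <;> subst b2
      · omega
      · right; left; exact ⟨rfl, by omega⟩
      · right; right; left; exact ⟨rfl, by omega⟩
      · omega
      · omega
      · right; right; right; exact ⟨rfl, by omega⟩
      · omega
      · omega
      · omega
    · omega
  · rcases split _ h3 with ⟨b1, b2⟩ | ⟨b1, j, b2, b3⟩
    · omega
    · left
      refine ⟨i, j, by omega, a2, b2, ?_, by omega⟩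
      rw [a3, b3]

theorem VCE_mk (v : ℕ) (F : ℤ → Bool) (a b : ℕ) (hab : a < b) (ha : F (a : ℤ) = true)
    (hb : F (b : ℤ) = true) (n : ℕ) (hn : n = 2 * v + 2 * (a + b)) :
    Rep (Vs v F) n (v + 2 * a, v + 2 * b) := by
  refine ⟨?_, ?_, ?_, ?_⟩
  · simp only
    omega
  · right; right; right
    exact ⟨a, ha, rfl⟩
  · right; right; right
    exact ⟨b, hb, rfl⟩
  · simp only
    omega

theorem VCE_mk2 (v : ℕ) (F : ℤ → Bool) (a b : ℕ) (hab : a ≠ b) (ha : F (a : ℤ) = true)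
    (hb : F (b : ℤ) = true) (n : ℕ) (hn : n = 2 * v + 2 * (a + b)) :
    Rep (Vs v F) n (v + 2 * min a b, v + 2 * max a b) := by
  rcases Nat.lt_or_gt_of_ne hab with h | h
  · rw [min_eq_left h.le, max_eq_right h.le]
    exact VCE_mk v F a b h ha hb n hn
  · rw [min_eq_right h.le, max_eq_left h.le]
    exact VCE_mk v F b a h hb ha n (by omega)

theorem VCE (h1 : VSM_stmt) : VCE_stmt := by
  intro v F hv hv5 hF hTwo n hn hev
  obtain ⟨hsm, hv2, hv4⟩ := h1 v F hv hv5 hF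
  have hmem : n ∈ Vs v F ↔ n = 2 * v + 4 ∨ n = 4 * v + 4 := by
    constructor
    · intro h
      rcases h with h | h | h | ⟨i, hi, h⟩
      · omega
      · exact Or.inl h
      · exact Or.inr h
      · omega
    · intro h
      rcases h with h | h
      · exact Or.inr (Or.inl h)
      · exact Or.inr (Or.inr (Or.inl h))
  have e4 : 4 ∈ Vs v F := Or.inl rfl
  have e5 : 2 * v + 4 ∈ Vs v F := Or.inr (Or.inl rfl)
  have e6 : 4 * v + 4 ∈ Vs v F := Or.inr (Or.inr (Or.inl rfl))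
  -- a representation of an odd sum
  have hodd : ∀ a b : ℕ, F (a : ℤ) = true → F (b : ℤ) = true → (a + b) % 2 = 1 → v < a ∨ v < b := by
    intro a b ha hb hab
    by_contra hcon
    push Not at hcon
    have h2 := (hsm a hcon.1).1 ha
    have h3 := (hsm b hcon.2).1 hb
    omega
  rw [hmem]
  by_cases hlt : n < 2 * v
  · constructor
    · intro h
      omega
    · rintro ⟨p, hp, -⟩
      rcases VCE_conv v F hv n hev p hp with ⟨a, b, _, _, _, _, h⟩ | ⟨_, h⟩ | ⟨_, h⟩ | ⟨_, h⟩ <;> omega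
  obtain ⟨s, hs⟩ : ∃ s : ℕ, n = 2 * v + 2 * s := ⟨(n - 2 * v) / 2, by omega⟩
  have hF0 : F ((0 : ℕ) : ℤ) = true := by exact_mod_cast hF.zero
  have hF2 : F ((2 : ℕ) : ℤ) = true := (hsm 2 (by omega)).2 rfl
  have hF4 : F ((4 : ℕ) : ℤ) = true := (hsm 4 (by omega)).2 rfl
  have hFv2 : F ((v + 2 : ℕ) : ℤ) = true := by
    push_cast
    exact hv2
  by_cases c0 : s = 0
  · constructor
    · intro h
      omega
    · rintro ⟨p, hp, -⟩
      rcases VCE_conv v F hv n hev p hp with ⟨a, b, hab, _, _, _, h⟩ | ⟨_, h⟩ | ⟨_, h⟩ | ⟨_, h⟩ <;> omega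
  by_cases c2 : s = 2
  · refine ⟨fun _ => ⟨(v + 2 * 0, v + 2 * 2), VCE_mk v F 0 2 (by omega) hF0 hF2 n (by omega), fun p hp => ?_⟩,
      fun _ => Or.inl (by omega)⟩
    rcases VCE_conv v F hv n hev p hp with ⟨a, b, hab, _, _, hpe, h⟩ | ⟨_, h⟩ | ⟨_, h⟩ | ⟨_, h⟩
    · have ha : a = 0 := by omega
      have hb : b = 2 := by omega
      rw [hpe, ha, hb]
    · omega
    · omega
    · omega
  by_cases c4 : s = 4
  · constructor
    · intro h
      omega
    · rintro ⟨p, -, hp⟩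
      have a := hp _ (VCE_mk v F 0 4 (by omega) hF0 hF4 n (by omega))
      have b := hp (4, 2 * v + 4) ⟨by simp only; omega, e4, e5, by simp only; omega⟩
      have c := a.trans b.symm
      rw [Prod.mk.injEq] at c
      omega
  by_cases cv : s = v
  · constructor
    · intro h
      omega
    · rintro ⟨p, hp, -⟩
      rcases VCE_conv v F hv n hev p hp with ⟨a, b, hab, ha, hb, _, h⟩ | ⟨_, h⟩ | ⟨_, h⟩ | ⟨_, h⟩
      · rcases hodd a b ha hb (by omega) with h2 | h2 <;> omega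
      · omega
      · omega
      · omega
  by_cases cv2 : s = v + 2
  · refine ⟨fun _ => ⟨(v + 2 * 0, v + 2 * (v + 2)), VCE_mk v F 0 (v + 2) (by omega) hF0 hFv2 n (by omega), fun p hp => ?_⟩,
      fun _ => Or.inr (by omega)⟩
    rcases VCE_conv v F hv n hev p hp with ⟨a, b, hab, ha, hb, hpe, h⟩ | ⟨_, h⟩ | ⟨_, h⟩ | ⟨_, h⟩
    · have hb2 : b = v + 2 := by
        rcases hodd a b ha hb (by omega) with h2 | h2
        · omega
        · by_cases hb1 : b = v + 1
          · have ha1 : a = 1 := by omega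
            have := (hsm 1 (by omega)).1 (by rw [ha1] at ha; exact ha)
            omega
          · omega
      have ha2 : a = 0 := by omega
      rw [hpe, ha2, hb2]
    · omega
    · omega
    · omega
  by_cases cv4 : s = v + 4
  · constructor
    · intro h
      omega
    · rintro ⟨p, -, hp⟩
      have a := hp _ (VCE_mk v F 2 (v + 2) (by omega) hF2 hFv2 n (by omega))
      have b := hp (4, 4 * v + 4) ⟨by simp only; omega, e4, e6, by simp only; omega⟩
      have c := a.trans b.symm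
      rw [Prod.mk.injEq] at c
      omega
  by_cases co : s % 2 = 1 ∧ s < v
  · constructor
    · intro h
      omega
    · rintro ⟨p, hp, -⟩
      rcases VCE_conv v F hv n hev p hp with ⟨a, b, hab, ha, hb, _, h⟩ | ⟨_, h⟩ | ⟨_, h⟩ | ⟨_, h⟩
      · rcases hodd a b ha hb (by omega) with h2 | h2 <;> omega
      · omega
      · omega
      · omega
  · obtain ⟨a, c, ha, ha', hc, hc', n1, n2, n3, n4⟩ := hTwo s c0 c2 c4 cv cv2 cv4 co
    have hnn : ∀ j : ℤ, F j = true → 0 ≤ j := by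
      intro j hj
      by_contra h
      rw [hF.neg j (by omega)] at hj
      exact Bool.noConfusion hj
    obtain ⟨i, rfl⟩ := Int.eq_ofNat_of_zero_le (hnn _ ha)
    obtain ⟨j, hj⟩ := Int.eq_ofNat_of_zero_le (hnn _ ha')
    obtain ⟨k, rfl⟩ := Int.eq_ofNat_of_zero_le (hnn _ hc)
    obtain ⟨l, hl⟩ := Int.eq_ofNat_of_zero_le (hnn _ hc')
    rw [hj] at ha'
    rw [hl] at hc'
    constructor
    · intro h
      omega
    · rintro ⟨p, -, hp⟩
      have A := hp _ (VCE_mk2 v F i j (by omega) ha ha' n (by omega))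
      have B := hp _ (VCE_mk2 v F k l (by omega) hc hc' n (by omega))
      have C := A.trans B.symm
      rw [Prod.mk.injEq] at C
      omega

end Pool.Agent.U4
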